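import Pool.Agent.Helper97.Speed.Markov
import Pool.Agent.Helper46.Speed.ZeroOne
import Pool.Agent.Helper66.Speed.WalkLe

/-! # Task W1 of MP_f07f0f_pr: distances -/

namespace Pool.Agent.Helper97.Speed

open MeasureTheory Filter Topology ENNReal PMap

variable {α : ℝ} {P : Measure HalfPlane}

namespace PMap

variable {m E : PMap} {r : ℕ}

/-- `x` is a vertex of `m` -/
def IsV (m : PMap) (x : ℕ) : Prop := ∃ d ∈ m.E, m.org d = x

lemma dist_le_of_path {x y : ℕ} {p : List ℕ} (hp : m.Path x p y) : m.dist x y ≤ p.length :=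
  Nat.sInf_le ⟨p, hp, rfl⟩

lemma exists_min_path {x y : ℕ} (h : ∃ p, m.Path x p y) :
    ∃ p, m.Path x p y ∧ p.length = m.dist x y := by
  obtain ⟨p, hp⟩ := h
  exact Nat.sInf_mem (s := {n | ∃ p, m.Path x p y ∧ p.length = n}) ⟨_, p, hp, rfl⟩

theorem dist_self (m : PMap) (x : ℕ) : m.dist x x = 0 := by
  have h : m.Path x [] x := rfl
  exact Nat.le_zero.1 (dist_le_of_path h)

lemma exists_path_of_walk (h : m.Pre) {x n y : ℕ} (hw : h.net.Walk x n y) :
    ∃ p, m.Path x p y := by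
  induction hw with
  | nil x => exact ⟨[], rfl⟩
  | cons hd _ ih =>
    obtain ⟨p, hp⟩ := ih
    exact ⟨_ :: p, hd, rfl, hp⟩

lemma exists_path_reverse (h : m.Pre) {x y : ℕ} (hp : ∃ p, m.Path x p y) :
    ∃ p, m.Path y p x := by
  obtain ⟨p, hp⟩ := hp
  exact ⟨_, path_reverse h hp⟩

theorem exists_path (h : m.IsHalfPlane) {x y : ℕ} (hx : m.IsV x) (hy : m.IsV y) :
    ∃ p, m.Path x p y := by
  obtain ⟨d, hd, rfl⟩ := hx
  obtain ⟨e, he, rfl⟩ := hy
  have key : ∀ d ∈ m.E, ∃ a ∈ m.In, (∀ T : Finset ℕ, a ∈ T → d ∈ m.X T) := by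
    rintro d (hd | hd)
    · exact ⟨d, hd, fun T hT => Or.inl hT⟩
    · exact ⟨m.rev d, hd, fun T hT => Or.inr hT⟩
  obtain ⟨a, ha, ha'⟩ := key d hd
  obtain ⟨b, hb, hb'⟩ := key e he
  obtain ⟨k, hk⟩ := exh_exhausts_finset h {a, b} (by
    intro c hc
    rcases Finset.mem_insert.1 hc with rfl | hc
    · exact ha
    · rw [Finset.mem_singleton] at hc; exact hc ▸ hb)
  obtain ⟨j, b', n, T, R, hT, -⟩ := exh_reg h k
  have hmem : ∀ c ∈ m.In, c ∉ (exh m k).In → c ∈ T := by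
    intro c hc hc'
    by_contra hcon
    exact hc' (by rw [R.In]; exact ⟨hc, hcon⟩)
  have h1 := ha' T (hmem a ha (hk a (by simp)))
  have h2 := hb' T (hmem b hb (hk b (by simp)))
  obtain ⟨k1, -, w1⟩ := R.walk_le hT h1
  obtain ⟨k2, -, w2⟩ := R.walk_le hT h2
  obtain ⟨p, hp⟩ := exists_path_of_walk _ w1
  obtain ⟨q, hq⟩ := exists_path_reverse h.pre (exists_path_of_walk _ w2)
  exact ⟨p ++ q, path_append.2 ⟨_, hp, hq⟩⟩

theorem dist_comm (h : m.IsHalfPlane) {x y : ℕ} (_hx : m.IsV x) (_hy : m.IsV y) :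
    m.dist x y = m.dist y x := by
  have key : ∀ {x y : ℕ} {n : ℕ}, (∃ p, m.Path x p y ∧ p.length = n) →
      ∃ p, m.Path y p x ∧ p.length = n := by
    rintro x y n ⟨p, hp, rfl⟩
    exact ⟨_, path_reverse h.pre hp, by simp⟩
  unfold dist
  congr 1
  ext n
  exact ⟨key, key⟩

theorem dist_triangle (h : m.IsHalfPlane) {x y z : ℕ} (hx : m.IsV x) (hy : m.IsV y)
    (hz : m.IsV z) : m.dist x z ≤ m.dist x y + m.dist y z := by
  obtain ⟨p, hp, hp'⟩ := exists_min_path (exists_path h hx hy)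
  obtain ⟨q, hq, hq'⟩ := exists_min_path (exists_path h hy hz)
  have := dist_le_of_path (path_append.2 ⟨_, hp, hq⟩)
  rw [List.length_append] at this
  omega

theorem dist_adj (_h : m.IsHalfPlane) {d : ℕ} (hd : d ∈ m.E) :
    m.dist (m.org d) (m.org (m.rev d)) ≤ 1 :=
  dist_le_of_path (p := [d]) ⟨hd, rfl, rfl⟩

lemma path_shift (m : PMap) (k : ℤ) {x y : ℕ} {p : List ℕ} :
    (m.shift k).Path x p y ↔ m.Path x p y := by
  induction p generalizing x with
  | nil => exact Iff.rfl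
  | cons d p ih => exact and_congr Iff.rfl (and_congr Iff.rfl ih)

theorem dist_shift (m : PMap) (k : ℤ) (x y : ℕ) : (m.shift k).dist x y = m.dist x y := by
  unfold dist
  congr 1
  ext n
  simp only [Set.mem_ofPred_eq, path_shift]

theorem dist_le_of_ok (hok : Ok m E r) {x y : ℕ} (hx : E.IsV x) (hy : E.IsV y) :
    m.dist x y ≤ E.dist x y := by
  obtain ⟨j, b, n, S, R, hS, hr⟩ := hok
  obtain ⟨p, hp, hp'⟩ := exists_min_path (exists_path R.hp₂ hx hy)
  rw [← hp']
  exact dist_le_of_path (R.path_sub hp)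

lemma Reg.path_cases {j : ℤ} {b n : ℕ} {T : Finset ℕ} (R : Reg m E j b n T) {y : ℕ} :
    ∀ (p : List ℕ) (z : ℕ), E.IsV z → m.Path z p y →
      E.Path z p y ∨ ∃ l, j ≤ l ∧ l ≤ j + n ∧ ∃ q, E.Path z q (E.V l) ∧ q.length ≤ p.length := by
  intro p
  induction p with
  | nil => intro z _ hp; exact Or.inl hp
  | cons d p ih =>
    intro z hz hp
    obtain ⟨hd, hdz, hp'⟩ := hp
    by_cases hdE : d ∈ E.E
    · have hz' : E.IsV (m.org (m.rev d)) :=
        ⟨E.rev d, R.hp₂.pre.rev_mem_E hdE, by rw [R.org, R.rev]⟩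
      rcases ih _ hz' hp' with h1 | ⟨l, h1, h2, q, h3, h4⟩
      · left
        refine ⟨hdE, by rw [R.org]; exact hdz, ?_⟩
        rw [R.org, R.rev]; exact h1
      · right
        refine ⟨l, h1, h2, d :: q, ⟨hdE, by rw [R.org]; exact hdz, ?_⟩, by simpa using h4⟩
        rw [R.org, R.rev]; exact h3
    · right
      obtain ⟨e, he, hez⟩ := hz
      rw [R.org] at hez
      obtain ⟨l, h1, h2, h3⟩ := R.interface he hd hdE (by rw [hdz, hez])
      refine ⟨l, h1, h2, [], ?_, by simp⟩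
      show z = E.V l
      rw [← h3, hez]

lemma IsHalfPlane.isV_V (h : m.IsHalfPlane) (l : ℤ) : m.IsV (m.V l) :=
  ⟨m.bd l, mem_E_of_mem (h.bd_mem l), rfl⟩

theorem dist_ge_of_ok (hok : Ok m E r) {x y : ℕ} (hx : E.IsV x) (hy : m.IsV y) :
    ∃ K, ∀ z, E.IsV z → E.dist x z ≤ m.dist y z + K := by
  obtain ⟨j, b, n, S, R, hS, hr⟩ := hok
  set K := (Finset.range (n + 1)).sup (fun s : ℕ => E.dist x (E.V (j + s))) with hK
  refine ⟨K + E.dist x y, ?_⟩
  intro z hz
  have hzm : m.IsV z := by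
    obtain ⟨e, he, hez⟩ := hz
    exact ⟨e, R.E_subset he, by rw [← R.org]; exact hez⟩
  obtain ⟨p, hp, hp'⟩ := exists_min_path (exists_path R.hp hzm hy)
  rw [dist_comm R.hp hzm hy] at hp'
  rcases R.path_cases p z hz hp with h1 | ⟨l, h1, h2, q, h3, h4⟩
  · have hyE : E.IsV y := by
      rcases List.eq_nil_or_concat p with rfl | ⟨p', d, rfl⟩
      · have : z = y := h1
        exact this ▸ hz
      · rw [List.concat_eq_append] at h1
        have h2 := h1.target_last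
        obtain ⟨w, -, h3⟩ := path_append.1 h1
        have h4 := (path_singleton.1 h3).1
        exact ⟨E.rev d, R.hp₂.pre.rev_mem_E h4, h2⟩
    have h2 := dist_triangle R.hp₂ hx hyE hz
    have h3 := dist_le_of_path h1
    rw [dist_comm R.hp₂ hz hyE] at h3
    omega
  · have h5 := dist_triangle R.hp₂ hx (R.hp₂.isV_V l) hz
    have h6 := dist_le_of_path h3
    rw [dist_comm R.hp₂ hz (R.hp₂.isV_V l)] at h6
    have h7 : E.dist x (E.V l) ≤ K := by
      have := Finset.le_sup (f := fun s : ℕ => E.dist x (E.V (j + s)))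
        (Finset.mem_range.2 (show (l - j).toNat < n + 1 by omega))
      beta_reduce at this
      rwa [show j + ((l - j).toNat : ℤ) = l by omega] at this
    omega

/-- words and paths -/
lemma exists_path_iff_word (h : m.IsHalfPlane) {y : ℕ} : ∀ (N : ℕ) {r : ℕ}, r ∈ m.E →
    ((∃ p, m.Path (m.org r) p y ∧ p.length = N) ↔
      ∃ u : List ℕ, u.length = N ∧ m.org (m.dart r u) = y) := by
  intro N
  induction N with
  | zero =>
    intro r hr
    constructor
    · rintro ⟨p, hp, hl⟩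
      rw [List.length_eq_zero_iff] at hl
      subst hl
      exact ⟨[], rfl, hp⟩
    · rintro ⟨u, hl, hu⟩
      rw [List.length_eq_zero_iff] at hl
      subst hl
      exact ⟨[], hu, rfl⟩
  | succ N ih =>
    intro r hr
    constructor
    · rintro ⟨p, hp, hl⟩
      obtain ⟨d, p, rfl⟩ := List.exists_cons_of_length_eq_add_one hl
      obtain ⟨hd, hdr, hp'⟩ := hp
      obtain ⟨i, hi⟩ := h.exists_rot hr hd hdr.symm
      have hstep : m.step r i = m.rev d := by rw [step, hi]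
      obtain ⟨u, hu, hu'⟩ := (ih (r := m.rev d) (h.pre.rev_mem_E hd)).1 ⟨p, hp', by simpa using hl⟩
      refine ⟨i :: u, by simp [hu], ?_⟩
      rw [dart_cons, hstep]
      exact hu'
    · rintro ⟨u, hl, hu⟩
      obtain ⟨i, u, rfl⟩ := List.exists_cons_of_length_eq_add_one hl
      rw [dart_cons] at hu
      have h1 := h.pre.rot_iter_maps (x := m.org r) ⟨hr, rfl⟩ i
      obtain ⟨p, hp, hp'⟩ := (ih (r := m.step r i) (h.pre.step_mem hr i)).2
        ⟨u, by simpa using hl, hu⟩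
      exact ⟨m.rot^[i] r :: p, ⟨h1.1, h1.2, hp⟩, by simp [hp']⟩

lemma dist_eq_word (h : m.IsHalfPlane) {r : ℕ} (hr : r ∈ m.E) (y : ℕ) :
    m.dist (m.org r) y = sInf {N | ∃ u : List ℕ, u.length = N ∧ m.org (m.dart r u) = y} := by
  unfold dist
  congr 1
  ext N
  exact exists_path_iff_word h N hr

/-- the distance between the origin and the vertex given by a word is local -/
lemma LocEq.dist_dart {K : ℕ} {v : List ℕ} (hv : v.length ≤ K) {g : PMap} (hL : LocEq K m g) :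
    g.dist (g.org (g.bd 0)) (g.org (g.dart (g.bd 0) v)) =
      m.dist (m.org (m.bd 0)) (m.org (m.dart (m.bd 0) v)) := by
  obtain ⟨φ, T, T', I⟩ := hL
  have hm := I.n1.hp
  have hg := I.n2.hp
  have hX : ∀ u : List ℕ, u.length ≤ K → m.dart (m.bd 0) u ∈ m.X T := by
    intro u hu
    obtain ⟨j, b, n, S, R, hS, hr⟩ := exh_ok hm hu
    have hTS : S = T := by
      ext d
      have h1 : m.In \ (S : Set ℕ) = m.In \ (T : Set ℕ) := by rw [← R.In, ← I.n1.In]
      constructor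
      · intro hd
        by_contra hd'
        have : d ∈ m.In \ (T : Set ℕ) := ⟨(R.tri d hd).1, hd'⟩
        rw [← h1] at this
        exact this.2 hd
      · intro hd
        by_contra hd'
        have : d ∈ m.In \ (S : Set ℕ) := ⟨(I.n1.tri d hd).1, hd'⟩
        rw [h1] at this
        exact this.2 hd
    exact hTS ▸ hr
  have hD : ∀ u : List ℕ, u.length ≤ K → g.dart (g.bd 0) u = φ (m.dart (m.bd 0) u) :=
    fun u hu => I.dart_start hu subset_rfl
  have hiff : ∀ u : List ℕ, u.length ≤ K →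
      (m.org (m.dart (m.bd 0) u) = m.org (m.dart (m.bd 0) v) ↔
        g.org (g.dart (g.bd 0) u) = g.org (g.dart (g.bd 0) v)) := by
    intro u hu
    rw [hD u hu, hD v hv]
    exact I.org _ (hX u hu) _ (hX v hv)
  rw [dist_eq_word hm (mem_E_of_mem (hm.bd_mem 0)), dist_eq_word hg (mem_E_of_mem (hg.bd_mem 0))]
  set A := {N | ∃ u : List ℕ, u.length = N ∧
    m.org (m.dart (m.bd 0) u) = m.org (m.dart (m.bd 0) v)} with hA
  set B := {N | ∃ u : List ℕ, u.length = N ∧
    g.org (g.dart (g.bd 0) u) = g.org (g.dart (g.bd 0) v)} with hB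
  have hvA : v.length ∈ A := ⟨v, rfl, rfl⟩
  have hvB : v.length ∈ B := ⟨v, rfl, rfl⟩
  have hAB : ∀ N ≤ K, N ∈ A ↔ N ∈ B := by
    intro N hN
    constructor
    · rintro ⟨u, hu, h1⟩
      exact ⟨u, hu, (hiff u (by omega)).1 h1⟩
    · rintro ⟨u, hu, h1⟩
      exact ⟨u, hu, (hiff u (by omega)).2 h1⟩
  refine le_antisymm ?_ ?_
  · exact Nat.sInf_le ((hAB _ ((Nat.sInf_le hvA).trans hv)).1 (Nat.sInf_mem ⟨_, hvA⟩))
  · exact Nat.sInf_le ((hAB _ ((Nat.sInf_le hvB).trans hv)).2 (Nat.sInf_mem ⟨_, hvB⟩))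

end PMap

theorem measurable_dist (n : ℕ) :
    Measurable (fun p : HalfPlane × (ℕ → ℕ) => p.1.1.dist (xx [] p 0) (xx [] p n)) := by
  refine measurable_of_locP ?_
  intro p
  refine ⟨n, ?_⟩
  intro q hq
  have h0 : ∀ p : HalfPlane × (ℕ → ℕ), xx [] p 0 = p.1.1.org (p.1.1.bd 0) := fun p => rfl
  have hn : ∀ p : HalfPlane × (ℕ → ℕ), xx [] p n =
      p.1.1.org (p.1.1.dart (p.1.1.bd 0) (pre p.2 n)) := by
    intro p
    rw [xx, rr, run_eq]
    rfl
  show q.1.1.dist (xx [] q 0) (xx [] q n) = p.1.1.dist (xx [] p 0) (xx [] p n)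
  rw [h0, h0, hn, hn, ← hq.2]
  exact hq.1.dist_dart (by simp)

end Pool.Agent.Helper97.Speed
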